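import Pool.Agent.H341Q.KSpB

set_option autoImplicit false

/-!
# k-spaces of continuous functions with two values which are not Frechet-Urysohn

`Cp X` is the set of continuous maps `X → {0,1}` with the topology of pointwise convergence,
`IsKSpace Z` says that a subset of `Z` is closed as soon as its traces on all compact sets are.
-/

namespace Pool.Agent.Results.MP_110f0a_gt.KSpaceNotFrechet

open Set Topology Cardinal Pool.Agent.H341Q.KSp

theorem open_sInter {T : Type} {c : Cardinal.{0}} {hc : ℵ₀ ≤ c} (S : Set (Set (P T c hc)))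
    (hS : #(↥S) ≤ c) (h : ∀ U ∈ S, IsOpen U) : IsOpen (⋂₀ S) := by
  rw [open_iff]
  intro hp
  have e : (⋂₀ S)ᶜ = ⋃ U : S, (U.1)ᶜ := by
    ext x
    simp
  rw [e]
  refine (mk_iUnion_le_sum_mk).trans ?_
  refine (sum_le_sum _ (fun _ => c) fun U : S => (open_iff _).1 (h U.1 U.2) (hp U.1 U.2)).trans ?_
  rw [sum_const']
  exact (mul_le_mul' hS le_rfl).trans (mul_eq_self hc).le

/-- (1) For every uncountable cardinal `c` there is a Hausdorff space `X` with a base of clopen
sets, with exactly one point that is not isolated and in which intersections of at most `c` open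
sets are open, such that `C_p(X, {0,1})` is a k-space but not a Frechet-Urysohn space; removing a
clopen discrete set from `X` never makes it a Frechet-Urysohn space.
(2) For discrete `X`, `C_p(X, {0,1})` is a k-space, and it is Frechet-Urysohn iff `X` is countable.
(3) If `C_p(X, {0,1})` is a k-space all of whose compact subspaces are sequential (for example if
`X` is separable), then it is a Frechet-Urysohn space. -/
theorem result :
    (∀ c : Cardinal.{0}, ℵ₀ < c → ∃ (X : Type) (_ : TopologicalSpace X), T2Space X ∧
      TopologicalSpace.IsTopologicalBasis {U : Set X | IsClopen U} ∧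
      (∃! x : X, ¬ IsOpen {x}) ∧
      (∀ S : Set (Set X), #(↥S) ≤ c → (∀ U ∈ S, IsOpen U) → IsOpen (⋂₀ S)) ∧
      IsKSpace (Cp X) ∧ ¬ FrechetUrysohnSpace (Cp X) ∧
      ∀ D : Set X, IsClopen D → (∀ x ∈ D, IsOpen {x}) →
        ¬ FrechetUrysohnSpace (Cp (↥(Dᶜ)))) ∧
    (∀ (X : Type) [TopologicalSpace X] [DiscreteTopology X],
      IsKSpace (Cp X) ∧ (FrechetUrysohnSpace (Cp X) ↔ Countable X)) ∧
    ∀ (X : Type) [TopologicalSpace X], IsKSpace (Cp X) →
      ((∀ K : Set (Cp X), IsCompact K → SequentialSpace K) ∨
        TopologicalSpace.SeparableSpace X) → FrechetUrysohnSpace (Cp X) := by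
  refine ⟨?_, ?_, ?_⟩
  · intro c h0
    have hT : c < #(Set c.out) := by
      rw [mk_set, mk_out]
      exact cantor c
    refine ⟨P (Set c.out) c h0.le, inferInstance, inferInstance, basis, ?_, open_sInter, kspace,
      not_fu_P h0 hT, fun D hD hD' => not_fu_compl h0 hT D hD hD'⟩
    refine ⟨pt _ c h0.le, not_isolated hT, ?_⟩
    intro y hy
    by_contra h
    exact hy (clopen_single h).isOpen
  · intro X _ _
    exact ⟨kspace_discrete X, fu_discrete X⟩
  · intro X _ hk h
    rcases h with h | h
    · exact fu_of_seq X hk h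
    · exact fu_of_seq X hk (seq_of_separable X)

end Pool.Agent.Results.MP_110f0a_gt.KSpaceNotFrechet
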